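import Mathlib
import Pool.Agent.helper73.TC.XDefs

/-!
# The complex projective line is homeomorphic to the boundary of the tetrahedron
-/

set_option autoImplicit false
open Topology
open scoped LinearAlgebra.Projectivization

noncomputable section
namespace Pool.Agent.helper73.TC

namespace Cp1

/-- twice the real part of `z * conj w` -/
def hA (v : Fin 2 → ℂ) : ℝ := 2 * ((v 0).re * (v 1).re + (v 0).im * (v 1).im)
/-- twice the imaginary part of `z * conj w` -/
def hB (v : Fin 2 → ℂ) : ℝ := 2 * ((v 0).im * (v 1).re - (v 0).re * (v 1).im)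
/-- `|z|² - |w|²` -/
def hC (v : Fin 2 → ℂ) : ℝ := (v 0).re ^ 2 + (v 0).im ^ 2 - (v 1).re ^ 2 - (v 1).im ^ 2
/-- `|z|² + |w|²` -/
def hN (v : Fin 2 → ℂ) : ℝ := (v 0).re ^ 2 + (v 0).im ^ 2 + (v 1).re ^ 2 + (v 1).im ^ 2

theorem hopf (v : Fin 2 → ℂ) : hA v ^ 2 + hB v ^ 2 + hC v ^ 2 = hN v ^ 2 := by
  simp only [hA, hB, hC, hN]
  ring

theorem hN_nonneg (v : Fin 2 → ℂ) : 0 ≤ hN v := by
  simp only [hN]
  positivity

theorem hN_pos {v : Fin 2 → ℂ} (hv : v ≠ 0) : 0 < hN v := by
  refine lt_of_le_of_ne (hN_nonneg v) fun h => hv ?_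
  simp only [hN] at h
  have h1 : (v 0).re ^ 2 = 0 := by
    nlinarith [sq_nonneg (v 0).re, sq_nonneg (v 0).im, sq_nonneg (v 1).re, sq_nonneg (v 1).im]
  have h2 : (v 0).im ^ 2 = 0 := by
    nlinarith [sq_nonneg (v 0).re, sq_nonneg (v 0).im, sq_nonneg (v 1).re, sq_nonneg (v 1).im]
  have h3 : (v 1).re ^ 2 = 0 := by
    nlinarith [sq_nonneg (v 0).re, sq_nonneg (v 0).im, sq_nonneg (v 1).re, sq_nonneg (v 1).im]
  have h4 : (v 1).im ^ 2 = 0 := by
    nlinarith [sq_nonneg (v 0).re, sq_nonneg (v 0).im, sq_nonneg (v 1).re, sq_nonneg (v 1).im]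
  funext i
  fin_cases i
  · apply Complex.ext
    · simpa using h1
    · simpa using h2
  · apply Complex.ext
    · simpa using h3
    · simpa using h4

/-- the vector in the hyperplane with sum zero -/
def xx (a b c : ℝ) : Fin 4 → ℝ := ![a + b + c, a - b - c, -a + b - c, -a - b + c]

/-- the minimum of the coordinates -/
def mm (a b c : ℝ) : ℝ := min (min (a + b + c) (a - b - c)) (min (-a + b - c) (-a - b + c))

theorem mm_le (a b c : ℝ) (i : Fin 4) : mm a b c ≤ xx a b c i := by
  fin_cases i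
  · exact (min_le_left _ _).trans (min_le_left _ _)
  · exact (min_le_left _ _).trans (min_le_right _ _)
  · exact (min_le_right _ _).trans (min_le_left _ _)
  · exact (min_le_right _ _).trans (min_le_right _ _)

theorem mm_eq (a b c : ℝ) : ∃ i, xx a b c i = mm a b c := by
  rcases min_choice (min (a + b + c) (a - b - c)) (min (-a + b - c) (-a - b + c)) with h | h
  · rcases min_choice (a + b + c) (a - b - c) with h' | h'
    · exact ⟨0, by rw [mm, h, h']; rfl⟩
    · exact ⟨1, by rw [mm, h, h']; rfl⟩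
  · rcases min_choice (-a + b - c) (-a - b + c) with h' | h'
    · exact ⟨2, by rw [mm, h, h']; rfl⟩
    · exact ⟨3, by rw [mm, h, h']; rfl⟩

theorem xx_sum (a b c : ℝ) : ∑ i, xx a b c i = 0 := by
  simp [xx, Fin.sum_univ_four]
  ring

theorem mm_neg {a b c : ℝ} (h : 0 < a ^ 2 + b ^ 2 + c ^ 2) : mm a b c < 0 := by
  by_contra hcon
  push Not at hcon
  have h0 := hcon.trans (mm_le a b c 0)
  have h1 := hcon.trans (mm_le a b c 1)
  have h2 := hcon.trans (mm_le a b c 2)
  have h3 := hcon.trans (mm_le a b c 3)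
  have e0 : xx a b c 0 = a + b + c := rfl
  have e1 : xx a b c 1 = a - b - c := rfl
  have e2 : xx a b c 2 = -a + b - c := rfl
  have e3 : xx a b c 3 = -a - b + c := rfl
  rw [e0] at h0
  rw [e1] at h1
  rw [e2] at h2
  rw [e3] at h3
  have ha : a = 0 := by linarith
  have hb : b = 0 := by linarith
  have hc : c = 0 := by linarith
  rw [ha, hb, hc] at h
  norm_num at h

theorem mm_smul {t : ℝ} (ht : 0 ≤ t) (a b c : ℝ) : mm (t * a) (t * b) (t * c) = t * mm a b c := by
  simp only [mm]
  rw [mul_min_of_nonneg _ _ ht, mul_min_of_nonneg _ _ ht, mul_min_of_nonneg _ _ ht]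
  congr 2 <;> ring

theorem xx_smul (t a b c : ℝ) (i : Fin 4) : xx (t * a) (t * b) (t * c) i = t * xx a b c i := by
  fin_cases i <;> simp [xx] <;> ring

/-- the point of the boundary of the tetrahedron -/
def pp (a b c : ℝ) (i : Fin 4) : ℝ := 1 / 4 + xx a b c i / (4 * (-mm a b c))

theorem pp_nonneg {a b c : ℝ} (h : 0 < a ^ 2 + b ^ 2 + c ^ 2) (i : Fin 4) : 0 ≤ pp a b c i := by
  have h1 := mm_neg h
  have h2 := mm_le a b c i
  have h3 : 0 < 4 * (-mm a b c) := by linarith
  rw [pp, div_add_div _ _ (by norm_num) h3.ne']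
  apply div_nonneg _ (by positivity)
  linarith

theorem pp_sum {a b c : ℝ} : ∑ i, pp a b c i = 1 := by
  simp only [pp]
  have h1 : ∑ i, xx a b c i / (4 * (-mm a b c)) = 0 := by
    rw [← Finset.sum_div, xx_sum, zero_div]
  rw [Finset.sum_add_distrib, h1, add_zero]
  simp

theorem pp_zero {a b c : ℝ} (h : 0 < a ^ 2 + b ^ 2 + c ^ 2) : ∃ i, pp a b c i = 0 := by
  have h1 := mm_neg h
  obtain ⟨i, hi⟩ := mm_eq a b c
  refine ⟨i, ?_⟩
  have h3 : mm a b c ≠ 0 := h1.ne
  rw [pp, hi]
  field_simp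
  ring

theorem pp_smul {t : ℝ} (ht : 0 < t) (a b c : ℝ) (i : Fin 4) :
    pp (t * a) (t * b) (t * c) i = pp a b c i := by
  rw [pp, pp, xx_smul, mm_smul ht.le]
  congr 1
  rw [show 4 * (-(t * mm a b c)) = t * (4 * (-mm a b c)) by ring, mul_div_mul_left _ _ ht.ne']

/-- the point of the realization -/
def toReal {a b c : ℝ} (h : 0 < a ^ 2 + b ^ 2 + c ^ 2) : Real bd3 :=
  ⟨⟨pp a b c, pp_nonneg h, pp_sum⟩, by
    obtain ⟨i, hi⟩ := pp_zero h
    show (Finset.univ.filter fun v => 0 < pp a b c v) ≠ Finset.univ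
    intro h1
    have h2 := Finset.mem_univ i
    rw [← h1, Finset.mem_filter] at h2
    exact absurd hi h2.2.ne'⟩

theorem toReal_ext {x y : Real bd3} (h : ∀ i, (x.1 : Fin 4 → ℝ) i = (y.1 : Fin 4 → ℝ) i) : x = y :=
  Subtype.ext (Subtype.ext (funext h))

theorem hopf_pos {v : Fin 2 → ℂ} (hv : v ≠ 0) : 0 < hA v ^ 2 + hB v ^ 2 + hC v ^ 2 := by
  rw [hopf]
  exact pow_pos (hN_pos hv) 2

/-- the map on nonzero vectors -/
def fv (v : {v : Fin 2 → ℂ // v ≠ 0}) : Real bd3 := toReal (hopf_pos v.2)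

theorem fv_apply (v : {v : Fin 2 → ℂ // v ≠ 0}) (i : Fin 4) :
    ((fv v).1 : Fin 4 → ℝ) i = pp (hA v.1) (hB v.1) (hC v.1) i := rfl

theorem hA_smul (t : ℂ) (v : Fin 2 → ℂ) : hA (t • v) = Complex.normSq t * hA v := by
  simp only [hA, Pi.smul_apply, smul_eq_mul, Complex.mul_re, Complex.mul_im, Complex.normSq_apply]
  ring

theorem hB_smul (t : ℂ) (v : Fin 2 → ℂ) : hB (t • v) = Complex.normSq t * hB v := by
  simp only [hB, Pi.smul_apply, smul_eq_mul, Complex.mul_re, Complex.mul_im, Complex.normSq_apply]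
  ring

theorem hC_smul (t : ℂ) (v : Fin 2 → ℂ) : hC (t • v) = Complex.normSq t * hC v := by
  simp only [hC, Pi.smul_apply, smul_eq_mul, Complex.mul_re, Complex.mul_im, Complex.normSq_apply]
  ring

/-- the map on the projective line -/
def ff : CP 1 → Real bd3 := Projectivization.lift fv (by
  intro a b t hab
  have ht : t ≠ 0 := by
    rintro rfl
    rw [zero_smul] at hab
    exact a.2 hab
  refine toReal_ext fun i => ?_
  rw [fv_apply, fv_apply, hab, hA_smul, hB_smul, hC_smul,
    pp_smul (Complex.normSq_pos.2 ht)])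

theorem ff_mk {v : Fin 2 → ℂ} (hv : v ≠ 0) : ff (Projectivization.mk ℂ v hv) = fv ⟨v, hv⟩ := rfl

theorem continuous_fv : Continuous fv := by
  apply Continuous.subtype_mk
  apply Continuous.subtype_mk
  apply continuous_pi
  intro i
  have r0 : Continuous fun v : {v : Fin 2 → ℂ // v ≠ 0} => (v.1 0).re :=
    Complex.continuous_re.comp ((continuous_apply 0).comp continuous_subtype_val)
  have r1 : Continuous fun v : {v : Fin 2 → ℂ // v ≠ 0} => (v.1 1).re :=
    Complex.continuous_re.comp ((continuous_apply 1).comp continuous_subtype_val)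
  have i0 : Continuous fun v : {v : Fin 2 → ℂ // v ≠ 0} => (v.1 0).im :=
    Complex.continuous_im.comp ((continuous_apply 0).comp continuous_subtype_val)
  have i1 : Continuous fun v : {v : Fin 2 → ℂ // v ≠ 0} => (v.1 1).im :=
    Complex.continuous_im.comp ((continuous_apply 1).comp continuous_subtype_val)
  have hcA : Continuous fun v : {v : Fin 2 → ℂ // v ≠ 0} => hA v.1 :=
    continuous_const.mul ((r0.mul r1).add (i0.mul i1))
  have hcB : Continuous fun v : {v : Fin 2 → ℂ // v ≠ 0} => hB v.1 :=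
    continuous_const.mul ((i0.mul r1).sub (r0.mul i1))
  have hcC : Continuous fun v : {v : Fin 2 → ℂ // v ≠ 0} => hC v.1 :=
    (((r0.pow 2).add (i0.pow 2)).sub (r1.pow 2)).sub (i1.pow 2)
  have hm : Continuous fun v : {v : Fin 2 → ℂ // v ≠ 0} => mm (hA v.1) (hB v.1) (hC v.1) := by
    unfold mm
    fun_prop
  have hx : Continuous fun v : {v : Fin 2 → ℂ // v ≠ 0} => xx (hA v.1) (hB v.1) (hC v.1) i := by
    fin_cases i
    · exact (hcA.add hcB).add hcC
    · exact (hcA.sub hcB).sub hcC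
    · exact (hcA.neg.add hcB).sub hcC
    · exact (hcA.neg.sub hcB).add hcC
  show Continuous fun v : {v : Fin 2 → ℂ // v ≠ 0} => pp (hA v.1) (hB v.1) (hC v.1) i
  unfold pp
  refine continuous_const.add (hx.div (continuous_const.mul hm.neg) fun v => ?_)
  have := mm_neg (hopf_pos v.2)
  intro h
  linarith

theorem continuous_ff : Continuous ff := Continuous.quotient_lift continuous_fv _

theorem pp_inj {a b c a' b' c' : ℝ} (h : 0 < a ^ 2 + b ^ 2 + c ^ 2)
    (h' : 0 < a' ^ 2 + b' ^ 2 + c' ^ 2) (he : ∀ i, pp a b c i = pp a' b' c' i) :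
    ∃ t, 0 < t ∧ a = t * a' ∧ b = t * b' ∧ c = t * c' := by
  have h1 := mm_neg h
  have h2 := mm_neg h'
  have h3 : ∀ i, xx a b c i = (mm a b c / mm a' b' c') * xx a' b' c' i := by
    intro i
    have h4 := he i
    simp only [pp] at h4
    have h5 : xx a b c i / (4 * (-mm a b c)) = xx a' b' c' i / (4 * (-mm a' b' c')) := by linarith
    rw [div_eq_div_iff (by linarith) (by linarith)] at h5
    rw [div_mul_eq_mul_div, eq_div_iff h2.ne]
    linarith
  have e0 : xx a b c 0 = a + b + c := rfl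
  have e1 : xx a b c 1 = a - b - c := rfl
  have e2 : xx a b c 2 = -a + b - c := rfl
  have e3 : xx a b c 3 = -a - b + c := rfl
  have f0 : xx a' b' c' 0 = a' + b' + c' := rfl
  have f1 : xx a' b' c' 1 = a' - b' - c' := rfl
  have f2 : xx a' b' c' 2 = -a' + b' - c' := rfl
  have f3 : xx a' b' c' 3 = -a' - b' + c' := rfl
  have g0 := h3 0
  have g1 := h3 1
  have g2 := h3 2
  have g3 := h3 3
  rw [e0, f0] at g0
  rw [e1, f1] at g1
  rw [e2, f2] at g2
  rw [e3, f3] at g3
  refine ⟨mm a b c / mm a' b' c', div_pos_of_neg_of_neg h1 h2, ?_, ?_, ?_⟩ <;> linarith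

theorem injective_ff : Function.Injective ff := by
  intro p p' hpp
  induction p using Projectivization.ind with
  | h v hv =>
  induction p' using Projectivization.ind with
  | h v' hv' =>
  rw [ff_mk, ff_mk] at hpp
  have he : ∀ i, pp (hA v) (hB v) (hC v) i = pp (hA v') (hB v') (hC v') i := by
    intro i
    exact congrArg (fun x : Real bd3 => (x.1 : Fin 4 → ℝ) i) hpp
  obtain ⟨t, ht, h1, h2, h3⟩ := pp_inj (hopf_pos hv) (hopf_pos hv') he
  have h4 : hN v = t * hN v' := by
    have e1 := hopf v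
    have e2 := hopf v'
    rw [h1, h2, h3] at e1
    have e3 : hN v ^ 2 = (t * hN v') ^ 2 := by
      linear_combination t ^ 2 * e2 - e1
    exact (sq_eq_sq₀ (hN_nonneg v) (mul_nonneg ht.le (hN_nonneg v'))).1 e3
  have hz : Complex.normSq (v 0) = t * Complex.normSq (v' 0) := by
    rw [Complex.normSq_apply, Complex.normSq_apply]
    simp only [hC, hN] at h3 h4
    linarith
  have hw : Complex.normSq (v 1) = t * Complex.normSq (v' 1) := by
    rw [Complex.normSq_apply, Complex.normSq_apply]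
    simp only [hC, hN] at h3 h4
    linarith
  have hzw : v 0 * (starRingEnd ℂ) (v 1) = t * (v' 0 * (starRingEnd ℂ) (v' 1)) := by
    apply Complex.ext
    · rw [Complex.mul_re, Complex.re_ofReal_mul, Complex.mul_re, Complex.conj_re, Complex.conj_im,
        Complex.conj_re, Complex.conj_im]
      simp only [hA] at h1
      linarith
    · rw [Complex.mul_im, Complex.im_ofReal_mul, Complex.mul_im, Complex.conj_re, Complex.conj_im,
        Complex.conj_re, Complex.conj_im]
      simp only [hB] at h2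
      linarith
  rw [Projectivization.mk_eq_mk_iff']
  by_cases hw' : v' 1 = 0
  · have hw0 : v 1 = 0 := by
      rw [hw', map_zero, mul_zero] at hw
      exact Complex.normSq_eq_zero.1 hw
    have hz' : v' 0 ≠ 0 := by
      intro h
      apply hv'
      funext i
      fin_cases i
      · exact h
      · exact hw'
    refine ⟨v 0 / v' 0, ?_⟩
    funext i
    fin_cases i
    · exact div_mul_cancel₀ _ hz'
    · show v 0 / v' 0 * v' 1 = v 1
      rw [hw', hw0, mul_zero]
  · refine ⟨v 1 / v' 1, ?_⟩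
    have hw1 : v 1 ≠ 0 := by
      intro h
      rw [h, map_zero] at hw
      have h5 : 0 < t * Complex.normSq (v' 1) := mul_pos ht (Complex.normSq_pos.2 hw')
      rw [← hw] at h5
      exact lt_irrefl _ h5
    funext i
    fin_cases i
    · show v 1 / v' 1 * v' 0 = v 0
      have h5 : v 1 * (starRingEnd ℂ) (v 1) = (t : ℂ) * (v' 1 * (starRingEnd ℂ) (v' 1)) := by
        rw [Complex.mul_conj, Complex.mul_conj, hw]
        push_cast
        ring
      have hc : (starRingEnd ℂ) (v 1) ≠ 0 := by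
        rw [Ne, map_eq_zero]
        exact hw1
      rw [div_mul_eq_mul_div, div_eq_iff hw']
      refine mul_right_cancel₀ hc ?_
      have e1 : v 1 * v' 0 * (starRingEnd ℂ) (v 1) = v' 0 * (v 1 * (starRingEnd ℂ) (v 1)) := by ring
      have e2 : v 0 * v' 1 * (starRingEnd ℂ) (v 1) = v' 1 * (v 0 * (starRingEnd ℂ) (v 1)) := by ring
      rw [e1, e2, h5, hzw]
      ring
    · exact div_mul_cancel₀ _ hw'

/-- every direction is attained -/
theorem hopf_surj {a b c : ℝ} (h : 0 < a ^ 2 + b ^ 2 + c ^ 2) :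
    ∃ v : Fin 2 → ℂ, v ≠ 0 ∧ ∃ t, 0 < t ∧ hA v = t * a ∧ hB v = t * b ∧ hC v = t * c := by
  set N : ℝ := Real.sqrt (a ^ 2 + b ^ 2 + c ^ 2) with hN
  have hN2 : N ^ 2 = a ^ 2 + b ^ 2 + c ^ 2 := Real.sq_sqrt h.le
  have hN0 : 0 < N := Real.sqrt_pos.2 h
  have hcN : c ≤ N := by
    apply le_of_sq_le_sq _ hN0.le
    nlinarith [sq_nonneg a, sq_nonneg b]
  rcases hcN.eq_or_lt with h1 | h1
  · have hab : a ^ 2 + b ^ 2 = 0 := by
      rw [← h1] at hN2
      linarith
    have ha : a = 0 := by nlinarith [sq_nonneg a, sq_nonneg b]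
    have hb : b = 0 := by nlinarith [sq_nonneg a, sq_nonneg b]
    have hc : 0 < c := by rw [h1]; exact hN0
    refine ⟨![1, 0], ?_, c⁻¹, inv_pos.2 hc, ?_, ?_, ?_⟩
    · intro h2
      have := congrFun h2 0
      simp at this
    · simp [hA, ha]
    · simp [hB, hb]
    · simp [hC, hc.ne']
  · have hd : 0 < N - c := by linarith
    refine ⟨![⟨a, b⟩, ((N - c : ℝ) : ℂ)], ?_, 2 * (N - c), by linarith, ?_, ?_, ?_⟩
    · intro h2
      have h3 := congrFun h2 1
      simp only [Matrix.cons_val_one, Matrix.cons_val_fin_one, Pi.zero_apply] at h3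
      rw [Complex.ofReal_eq_zero] at h3
      linarith
    · simp only [hA, Matrix.cons_val_zero, Matrix.cons_val_one, Matrix.cons_val_fin_one,
        Complex.ofReal_re, Complex.ofReal_im]
      ring
    · simp only [hB, Matrix.cons_val_zero, Matrix.cons_val_one, Matrix.cons_val_fin_one,
        Complex.ofReal_re, Complex.ofReal_im]
      ring
    · simp only [hC, Matrix.cons_val_zero, Matrix.cons_val_one, Matrix.cons_val_fin_one,
        Complex.ofReal_re, Complex.ofReal_im]
      nlinarith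

theorem surjective_ff : Function.Surjective ff := by
  intro p
  set q : Fin 4 → ℝ := (p.1 : Fin 4 → ℝ) with hq
  have hq0 : ∀ i, 0 ≤ q i := p.1.2.1
  have hq1 : ∑ i, q i = 1 := p.1.2.2
  obtain ⟨j, hj⟩ : ∃ j, q j = 0 := by
    by_contra hcon
    push Not at hcon
    have h1 : (Finset.univ.filter fun v => 0 < q v) ≠ Finset.univ := p.2
    apply h1
    rw [Finset.filter_eq_self]
    intro i _
    exact lt_of_le_of_ne (hq0 i) (hcon i).symm
  rw [Fin.sum_univ_four] at hq1
  -- the vector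
  set a : ℝ := 2 * (q 0 + q 1) - 1 with ha
  set b : ℝ := 2 * (q 0 + q 2) - 1 with hb
  set c : ℝ := 2 * (q 0 + q 3) - 1 with hc
  have hx : ∀ i, xx a b c i = 4 * q i - 1 := by
    intro i
    fin_cases i
    · show a + b + c = 4 * q 0 - 1
      linarith
    · show a - b - c = 4 * q 1 - 1
      linarith
    · show -a + b - c = 4 * q 2 - 1
      linarith
    · show -a - b + c = 4 * q 3 - 1
      linarith
  have hm : mm a b c = -1 := by
    apply le_antisymm
    · have h1 := mm_le a b c j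
      rw [hx, hj] at h1
      linarith
    · obtain ⟨i, hi⟩ := mm_eq a b c
      rw [← hi, hx]
      linarith [hq0 i]
  have hpos : 0 < a ^ 2 + b ^ 2 + c ^ 2 := by
    by_contra hcon
    push Not at hcon
    have ha0 : a = 0 := by nlinarith [sq_nonneg a, sq_nonneg b, sq_nonneg c]
    have hb0 : b = 0 := by nlinarith [sq_nonneg a, sq_nonneg b, sq_nonneg c]
    have hc0 : c = 0 := by nlinarith [sq_nonneg a, sq_nonneg b, sq_nonneg c]
    rw [ha0, hb0, hc0] at hm
    simp [mm] at hm
  obtain ⟨v, hv, t, ht, h1, h2, h3⟩ := hopf_surj hpos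
  refine ⟨Projectivization.mk ℂ v hv, toReal_ext fun i => ?_⟩
  rw [ff_mk, fv_apply]
  show pp (hA v) (hB v) (hC v) i = q i
  rw [h1, h2, h3, pp_smul ht, pp, hx, hm]
  ring

theorem compactSpace_CP : CompactSpace (CP 1) := by
  let S : Set (Fin 2 → ℂ) := Metric.sphere 0 1
  have hS : IsCompact S := isCompact_sphere 0 1
  have : CompactSpace S := isCompact_iff_compactSpace.1 hS
  let g : S → CP 1 := fun v => Projectivization.mk ℂ v.1 (by
    intro h
    have h1 := v.2
    rw [h] at h1
    simp [S] at h1)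
  have hg : Continuous g := by
    have h1 : Continuous (Quotient.mk (projectivizationSetoid ℂ (Fin 2 → ℂ))) :=
      continuous_quotient_mk'
    have h2 : Continuous fun v : S => (⟨v.1, by
      intro h
      have h1 := v.2
      rw [h] at h1
      simp [S] at h1⟩ : {v : Fin 2 → ℂ // v ≠ 0}) := continuous_subtype_val.subtype_mk _
    exact h1.comp h2
  have hs : Function.Surjective g := by
    intro p
    induction p using Projectivization.ind with
    | h v hv =>
    have hn : 0 < ‖v‖ := norm_pos_iff.2 hv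
    have h1 : ‖((‖v‖⁻¹ : ℝ) : ℂ) • v‖ = 1 := by
      rw [norm_smul, Complex.norm_real, norm_inv, norm_norm, inv_mul_cancel₀ hn.ne']
    refine ⟨⟨((‖v‖⁻¹ : ℝ) : ℂ) • v, by simpa [S] using h1⟩, ?_⟩
    show Projectivization.mk ℂ _ _ = _
    rw [Projectivization.mk_eq_mk_iff']
    exact ⟨((‖v‖⁻¹ : ℝ) : ℂ), rfl⟩
  have h1 : IsCompact (Set.range g) := isCompact_range hg
  rw [hs.range_eq] at h1
  exact ⟨h1⟩

theorem t2Space_Real : T2Space (Real bd3) :=
  inferInstanceAs (T2Space {w : stdSimplex ℝ (Fin 4) //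
    (Finset.univ.filter fun v => 0 < (w : Fin 4 → ℝ) v) ∈ bd3})

end Cp1

theorem cp1_homeo : Nonempty (CP 1 ≃ₜ Real bd3) := by
  have := Cp1.compactSpace_CP
  have := Cp1.t2Space_Real
  exact ⟨Continuous.homeoOfEquivCompactToT2
    (f := Equiv.ofBijective Cp1.ff ⟨Cp1.injective_ff, Cp1.surjective_ff⟩) Cp1.continuous_ff⟩

end Pool.Agent.helper73.TC
end
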